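import Pool.Agent.AT12.Stmts2
import Pool.Agent.Helper25_KF.Idm

/-!
# Squad AT12, QFV: the numbers `fv i z` are values at class functions of the centraliser
-/

open scoped BigOperators

noncomputable section

namespace Pool.Agent.PP.T12.H82

open Pool.Agent.Helper51_AWC Pool.Agent.Helper79_WRA Pool.Agent.PP Pool.Agent.PP.KF
open Pool.Agent.PP.K9 Pool.Agent.PP.K9.H97 Pool.Agent.PP.H75 Pool.Agent.PP.T3 Pool.Agent.PP.T2
open Pool.Agent.PP.T8

attribute [local instance] Ideal.Quotient.field

/-- conjugation does not change regularity -/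
theorem reg_conj {H : Type} [Group H] {ℓ : ℕ} {x : H} (s : H) (h : Reg ℓ (x * s * x⁻¹)) :
    Reg ℓ s := by
  have e : orderOf (x * s * x⁻¹) = orderOf s := by
    have := orderOf_injective (MulAut.conj x).toMonoidHom (MulAut.conj x).injective s
    simpa using this
  unfold Reg at h ⊢
  rwa [e] at h

/-- the average of a function over the conjugates -/
def avg {H : Type} [Group H] (j : H → ℂ) : H → ℂ :=
  fun s => (Nat.card H : ℂ)⁻¹ * ∑ᶠ x : H, j (x * s * x⁻¹)

section one

variable {H : Type} [Group H] [Finite H]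

theorem avg_cl (j : H → ℂ) (x y : H) : avg j (y * x * y⁻¹) = avg j x := by
  have := Fintype.ofFinite H
  unfold avg
  congr 1
  rw [finsum_eq_sum_of_fintype, finsum_eq_sum_of_fintype]
  rw [← Equiv.sum_comp (Equiv.mulRight y) (fun t => j (t * x * t⁻¹))]
  apply Finset.sum_congr rfl
  intro t _
  congr 1
  simp only [Equiv.coe_mulRight]
  group

theorem avg_mul (j E : H → ℂ) (hE : ∀ x y, E (y * x * y⁻¹) = E x) (hj : mulF j E = j) :
    mulF (avg j) E = avg j := by
  have := Fintype.ofFinite H
  funext s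
  have h1 : ∀ x : H, ∑ t : H, j (x * t * x⁻¹) * E (t⁻¹ * s) = j (x * s * x⁻¹) := by
    intro x
    have h2 : j (x * s * x⁻¹) = ∑ t : H, j t * E (t⁻¹ * (x * s * x⁻¹)) := by
      conv_lhs => rw [← hj]
      unfold mulF
      rw [finsum_eq_sum_of_fintype]
    rw [h2]
    rw [← Equiv.sum_comp (MulAut.conj x).toEquiv (fun t => j t * E (t⁻¹ * (x * s * x⁻¹)))]
    apply Finset.sum_congr rfl
    intro t _
    have e1 : (MulAut.conj x).toEquiv t = x * t * x⁻¹ := rfl
    rw [e1]
    congr 1
    rw [← hE (t⁻¹ * s) x]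
    congr 1
    group
  unfold mulF avg
  rw [finsum_eq_sum_of_fintype, finsum_eq_sum_of_fintype]
  have h3 : ∀ t : H, (Nat.card H : ℂ)⁻¹ * (∑ᶠ x : H, j (x * t * x⁻¹)) * E (t⁻¹ * s) =
      (Nat.card H : ℂ)⁻¹ * ∑ x : H, j (x * t * x⁻¹) * E (t⁻¹ * s) := by
    intro t
    rw [finsum_eq_sum_of_fintype, mul_assoc, Finset.sum_mul]
  rw [Finset.sum_congr rfl fun t _ => h3 t, ← Finset.mul_sum, Finset.sum_comm]
  congr 1
  exact Finset.sum_congr rfl fun x _ => h1 x

/-- sum against a class function of the group, translated by a central element -/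
theorem avg_sum (j : H → ℂ) (th : H → ℂ) (hth : ∀ x y, th (y * x * y⁻¹) = th x) :
    ∑ᶠ s : H, avg j s * th s = ∑ᶠ s : H, j s * th s := by
  have := Fintype.ofFinite H
  rw [finsum_eq_sum_of_fintype, finsum_eq_sum_of_fintype]
  have h3 : ∀ t : H, avg j t * th t =
      (Nat.card H : ℂ)⁻¹ * ∑ x : H, j (x * t * x⁻¹) * th t := by
    intro t
    unfold avg
    rw [finsum_eq_sum_of_fintype, mul_assoc, Finset.sum_mul]
  simp only [h3]
  rw [← Finset.mul_sum, Finset.sum_comm]
  have h4 : ∀ x : H, ∑ t : H, j (x * t * x⁻¹) * th t = ∑ s : H, j s * th s := by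
    intro x
    rw [← Equiv.sum_comp (MulAut.conj x).toEquiv (fun t => j t * th t)]
    apply Finset.sum_congr rfl
    intro t _
    have e1 : (MulAut.conj x).toEquiv t = x * t * x⁻¹ := rfl
    rw [e1, hth]
  simp only [h4]
  rw [Finset.sum_const, Finset.card_univ, nsmul_eq_mul, Nat.card_eq_fintype_card, ← mul_assoc,
    inv_mul_cancel₀, one_mul]
  exact Nat.cast_ne_zero.2 Fintype.card_ne_zero

end one

theorem qfv (hL : T8.LclStmt) (hP : T8.PrjStmt) : QfvStmt := by
  classical
  intro ℓ _ M _ hM G _ _ e V γ hld i hi z hz b hb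
  obtain ⟨j, hj, hoff, -, hjb, hth⟩ := hL ℓ M hM G e V γ hld i hi z hz b hb
  have hFG := Fintype.ofFinite G
  have hFC := Fintype.ofFinite (Cu z)
  let J : Cu z → ℂ := fun t => j t
  have hJJ : mulF J J = J := by
    have h1 := mulF_res (Cu z) j hoff
    rw [hj.id] at h1
    exact h1.symm
  have hJE : mulF J (eh M (fun t : Cu z => b t)) = J := by
    have h1 := mulF_res (Cu z) (PP.ext0 (Cu z) (eh M (fun t : Cu z => b t))) hoff
    rw [hjb] at h1
    have h2 : (fun t : Cu z => PP.ext0 (Cu z) (eh M (fun t : Cu z => b t)) t) =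
        eh M (fun t : Cu z => b t) := by
      funext t
      unfold PP.ext0
      rw [dif_pos t.2]
    rw [h2] at h1
    exact h1.symm
  refine ⟨avg J, ⟨fun x y => avg_cl J x y, ?_⟩, ?_, ?_⟩
  · -- vanishing at the singular elements
    intro s hs
    let th : Cu z → ℂ := fun h => ∑ x : Cu z, if x * s * x⁻¹ = h then 1 else 0
    have h1 := hP ℓ M hM (Cu z) J (fun g => hj.rm g) hJJ th ?_ ?_
    · have h2 : ∑ᶠ h, J h * th h = ∑ᶠ x : Cu z, J (x * s * x⁻¹) := by
        rw [finsum_eq_sum_of_fintype, finsum_eq_sum_of_fintype]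
        have h3 : ∀ h : Cu z, J h * th h = ∑ x : Cu z, if x * s * x⁻¹ = h then J h else 0 := by
          intro h
          simp only [th, Finset.mul_sum]
          apply Finset.sum_congr rfl
          intro x _
          split_ifs <;> simp
        simp only [h3]
        rw [Finset.sum_comm]
        apply Finset.sum_congr rfl
        intro x _
        rw [Finset.sum_ite_eq]
        simp
      unfold avg
      rw [← h2, h1, mul_zero]
    · intro x y
      simp only [th]
      rw [← Equiv.sum_comp (Equiv.mulLeft y) (fun t => if t * s * t⁻¹ = y * x * y⁻¹ then (1 : ℂ) else 0)]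
      apply Finset.sum_congr rfl
      intro t _
      have e1 : ((Equiv.mulLeft y) t * s * ((Equiv.mulLeft y) t)⁻¹ = y * x * y⁻¹) ↔
          (t * s * t⁻¹ = x) := by
        simp only [Equiv.coe_mulLeft]
        constructor
        · intro h
          have e2 : y * t * s * (y * t)⁻¹ = y * (t * s * t⁻¹) * y⁻¹ := by group
          rw [e2] at h
          exact mul_left_cancel (mul_right_cancel h)
        · intro h
          rw [← h]
          group
      simp only [e1]
    · intro x hx
      simp only [th]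
      apply Finset.sum_eq_zero
      intro t _
      rw [if_neg]
      intro h
      apply hs
      apply reg_conj (x := t) s
      rw [h]
      exact hx
  · exact avg_mul J _ (fun x y => KF.H25.eh_cl _ x y) hJE
  · intro th hcl
    rw [hth th hcl]
    unfold fv gbv
    rw [avg_sum J (fun c : Cu z => th (z * c))]
    · rw [sum_sub (Cu z) (fun g => j g * th (z * g)) (fun x hx => by rw [hoff x hx, zero_mul])]
    · intro x y
      have hy : z * (y : G) = y * z := (Subgroup.mem_centralizer_singleton_iff.1 y.2).symm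
      have e1 : z * ((y * x * y⁻¹ : Cu z) : G) = y * (z * x) * (y : G)⁻¹ := by
        push_cast
        rw [← mul_assoc, ← mul_assoc, hy]
        group
      rw [e1, hcl]

end Pool.Agent.PP.T12.H82
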